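import Mathlib

set_option autoImplicit false

open Real Finset MeasureTheory Set Filter Topology

namespace Pool.Agent.MP_cb3c9c_an.TB

/-- `Λ u = u tanh u - log cosh u`. -/
noncomputable def Lam (u : ℝ) : ℝ := u * (sinh u / cosh u) - log (cosh u)

theorem cosh_ne (u : ℝ) : cosh u ≠ 0 := (cosh_pos u).ne'

theorem hasDerivAt_th (u : ℝ) : HasDerivAt (fun u => sinh u / cosh u) (1 / cosh u ^ 2) u := by
  have h := (hasDerivAt_sinh u).div (hasDerivAt_cosh u) (cosh_ne u)
  refine h.congr_deriv ?_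
  have h1 := cosh_sq u
  congr 1
  nlinarith [h1]

theorem hasDerivAt_Lam (u : ℝ) : HasDerivAt Lam (u / cosh u ^ 2) u := by
  unfold Lam
  have h1 := (hasDerivAt_id u).mul (hasDerivAt_th u)
  have h2 := (hasDerivAt_cosh u).log (cosh_ne u)
  have h3 := h1.sub h2
  refine h3.congr_deriv ?_
  have h4 := cosh_ne u
  simp only [id]
  field_simp
  ring

theorem Lam_zero : Lam 0 = 0 := by unfold Lam; simp

/-- `tanh` is at most the identity on `[0, ∞)`. -/
theorem sinh_le_mul_cosh {u : ℝ} (hu : 0 ≤ u) : sinh u ≤ u * cosh u := by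
  have hd : ∀ x : ℝ, HasDerivAt (fun x => x * cosh x - sinh x) (x * sinh x) x := by
    intro x
    have h := ((hasDerivAt_id x).mul (hasDerivAt_cosh x)).sub (hasDerivAt_sinh x)
    refine h.congr_deriv ?_
    simp only [id]
    ring
  have hm : MonotoneOn (fun x => x * cosh x - sinh x) (Ici 0) := by
    apply monotoneOn_of_deriv_nonneg (convex_Ici 0)
    · exact fun x _ => (hd x).continuousAt.continuousWithinAt
    · exact fun x _ => (hd x).differentiableAt.differentiableWithinAt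
    · intro x hx
      rw [interior_Ici] at hx
      rw [(hd x).deriv]
      exact mul_nonneg hx.le (sinh_nonneg_iff.mpr hx.le)
  have := hm (mem_Ici.mpr le_rfl) (mem_Ici.mpr hu) hu
  simp at this
  linarith

/-- uniform window -/
theorem crit_uni {u : ℝ} (hu : 0 ≤ u) : (sinh u / cosh u) ^ 2 ≤ 2 * Lam u := by
  have hd : ∀ x : ℝ, HasDerivAt (fun x => 2 * Lam x - (sinh x / cosh x) ^ 2)
      (2 * (x / cosh x ^ 2) - 2 * (sinh x / cosh x) * (1 / cosh x ^ 2)) x := by
    intro x
    have h := ((hasDerivAt_Lam x).const_mul 2).sub ((hasDerivAt_th x).pow 2)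
    refine h.congr_deriv ?_
    push_cast
    ring
  have hm : MonotoneOn (fun x => 2 * Lam x - (sinh x / cosh x) ^ 2) (Ici 0) := by
    apply monotoneOn_of_deriv_nonneg (convex_Ici 0)
    · exact fun x _ => (hd x).continuousAt.continuousWithinAt
    · exact fun x _ => (hd x).differentiableAt.differentiableWithinAt
    · intro x hx
      rw [interior_Ici] at hx
      rw [(hd x).deriv]
      have h1 := sinh_le_mul_cosh (le_of_lt hx)
      have hc := cosh_pos x
      have h2 : 2 * (x / cosh x ^ 2) - 2 * (sinh x / cosh x) * (1 / cosh x ^ 2)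
          = 2 * (x * cosh x - sinh x) / cosh x ^ 3 := by
        field_simp
      rw [h2]
      apply div_nonneg _ (by positivity)
      linarith
  have := hm (mem_Ici.mpr le_rfl) (mem_Ici.mpr hu) hu
  simp only [Lam_zero, sinh_zero] at this
  norm_num at this
  linarith

/-- `artanh` lower bound in terms of `t = tanh v`. -/
theorem tanh_series {v : ℝ} (hv : 0 ≤ v) :
    (sinh v / cosh v) + (sinh v / cosh v) ^ 3 / 3 + (sinh v / cosh v) ^ 5 / 5 ≤ v := by
  have hd : ∀ x : ℝ, HasDerivAt (fun x => x - ((sinh x / cosh x) + (sinh x / cosh x) ^ 3 / 3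
      + (sinh x / cosh x) ^ 5 / 5)) ((sinh x / cosh x) ^ 6) x := by
    intro x
    have ht := hasDerivAt_th x
    have h := (hasDerivAt_id x).sub ((ht.add ((ht.pow 3).div_const 3)).add ((ht.pow 5).div_const 5))
    refine h.congr_deriv ?_
    have hc : 1 / cosh x ^ 2 = 1 - (sinh x / cosh x) ^ 2 := by
      have := cosh_sq x
      have hc := cosh_ne x
      field_simp
      linarith
    rw [hc]
    push_cast
    ring
  have hm : MonotoneOn (fun x => x - ((sinh x / cosh x) + (sinh x / cosh x) ^ 3 / 3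
      + (sinh x / cosh x) ^ 5 / 5)) (Ici 0) := by
    apply monotoneOn_of_deriv_nonneg (convex_Ici 0)
    · exact fun x _ => (hd x).continuousAt.continuousWithinAt
    · exact fun x _ => (hd x).differentiableAt.differentiableWithinAt
    · intro x hx
      rw [(hd x).deriv]
      positivity
  have := hm (mem_Ici.mpr le_rfl) (mem_Ici.mpr hv) hv
  simp only [sinh_zero] at this
  norm_num at this
  linarith

/-- key inequality for windows ending at two thirds: with `u = 3 v`. -/
theorem key_third {v : ℝ} (hv : 0 ≤ v) :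
    (sinh (2 * v) / cosh (2 * v)) ^ 2 + 2 * v * (sinh (2 * v) / cosh (2 * v))
      ≤ 3 * v * (sinh (3 * v) / cosh (3 * v)) := by
  set t := sinh v / cosh v with ht
  have hc := cosh_pos v
  have hs : 0 ≤ sinh v := sinh_nonneg_iff.mpr hv
  have ht0 : 0 ≤ t := div_nonneg hs hc.le
  have ht1 : t < 1 := by
    rw [ht, div_lt_one hc]
    exact sinh_lt_cosh v
  have hser := tanh_series hv
  rw [← ht] at hser
  have hsv : sinh v = t * cosh v := by rw [ht]; field_simp
  have h2 : sinh (2 * v) / cosh (2 * v) = 2 * t / (1 + t ^ 2) := by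
    rw [sinh_two_mul, cosh_two_mul, hsv]
    have h1 : (1 + t ^ 2) ≠ 0 := by positivity
    field_simp
  have h3 : sinh (3 * v) / cosh (3 * v) = t * (3 + t ^ 2) / (1 + 3 * t ^ 2) := by
    have e1 : sinh (3 * v) = cosh v ^ 3 * (t * (3 + t ^ 2)) := by
      rw [sinh_three_mul]
      have h5 : cosh v ^ 2 = sinh v ^ 2 + 1 := cosh_sq v
      have : t * (3 + t ^ 2) * cosh v ^ 3 = 3 * sinh v * cosh v ^ 2 + sinh v ^ 3 := by
        rw [hsv]; ring
      rw [show cosh v ^ 3 * (t * (3 + t ^ 2)) = t * (3 + t ^ 2) * cosh v ^ 3 by ring, this, h5]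
      ring
    have e2 : cosh (3 * v) = cosh v ^ 3 * (1 + 3 * t ^ 2) := by
      rw [cosh_three_mul]
      have h5 : cosh v ^ 2 = sinh v ^ 2 + 1 := cosh_sq v
      have : (1 + 3 * t ^ 2) * cosh v ^ 3 = cosh v ^ 3 + 3 * cosh v * sinh v ^ 2 := by
        rw [hsv]; ring
      rw [show cosh v ^ 3 * (1 + 3 * t ^ 2) = (1 + 3 * t ^ 2) * cosh v ^ 3 by ring, this]
      have : sinh v ^ 2 = cosh v ^ 2 - 1 := by linarith
      rw [this]; ring
    rw [e1, e2]
    have h1 : (1 + 3 * t ^ 2) ≠ 0 := by positivity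
    have h6 : cosh v ^ 3 ≠ 0 := by positivity
    field_simp
  rw [h2, h3]
  have hD : 3 * v * (t * (3 + t ^ 2) / (1 + 3 * t ^ 2))
      - ((2 * t / (1 + t ^ 2)) ^ 2 + 2 * v * (2 * t / (1 + t ^ 2)))
      = t * (v * (5 + 3 * t ^ 4) * (1 + t ^ 2) - 4 * t * (1 + 3 * t ^ 2))
        / ((1 + 3 * t ^ 2) * (1 + t ^ 2) ^ 2) := by
    have h1 : (1 + 3 * t ^ 2) ≠ 0 := by positivity
    have h4 : (1 + t ^ 2) ≠ 0 := by positivity
    field_simp
    ring
  have hpos : 0 ≤ v * (5 + 3 * t ^ 4) * (1 + t ^ 2) - 4 * t * (1 + 3 * t ^ 2) := by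
    have h5 : (t + t ^ 3 / 3 + t ^ 5 / 5) * ((5 + 3 * t ^ 4) * (1 + t ^ 2))
        ≤ v * ((5 + 3 * t ^ 4) * (1 + t ^ 2)) :=
      mul_le_mul_of_nonneg_right hser (by positivity)
    have h6 : 0 ≤ (t + t ^ 3 / 3 + t ^ 5 / 5) * ((5 + 3 * t ^ 4) * (1 + t ^ 2))
        - 4 * t * (1 + 3 * t ^ 2) := by
      set x := t ^ 2 with hx
      have e : (t + t ^ 3 / 3 + t ^ 5 / 5) * ((5 + 3 * t ^ 4) * (1 + t ^ 2))
          - 4 * t * (1 + 3 * t ^ 2)
          = t * ((1 + x / 3 + x ^ 2 / 5) * (5 + 3 * x ^ 2) * (1 + x) - 4 * (1 + 3 * x)) := by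
        rw [hx]; ring
      rw [e]
      apply mul_nonneg ht0
      have hx0 : 0 ≤ x := by positivity
      -- 1 - 16/3 x + 17/3 x^2 + 5 x^3 + 8/5 x^4 + 3/5 x^5
      nlinarith [sq_nonneg (x - 1 / 3), sq_nonneg (x - 3 / 10), mul_nonneg hx0 (sq_nonneg (x - 3 / 10)),
        mul_nonneg hx0 (sq_nonneg x), pow_nonneg hx0 4, pow_nonneg hx0 5, pow_nonneg hx0 3]
    linarith
  have hfin : 0 ≤ t * (v * (5 + 3 * t ^ 4) * (1 + t ^ 2) - 4 * t * (1 + 3 * t ^ 2))
        / ((1 + 3 * t ^ 2) * (1 + t ^ 2) ^ 2) :=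
    div_nonneg (mul_nonneg ht0 hpos) (by positivity)
  linarith

/-- window ending at two thirds -/
theorem crit_third {u : ℝ} (hu : 0 ≤ u) : (u * (cosh (2 * u / 3) / cosh u)) ^ 2 ≤ 2 * Lam u := by
  have hC : ∀ x : ℝ, HasDerivAt (fun x => cosh (2 * x / 3)) (sinh (2 * x / 3) * (2 / 3)) x := by
    intro x
    have h1 : HasDerivAt (fun x : ℝ => 2 * x / 3) (2 / 3) x := by
      have := ((hasDerivAt_id x).const_mul 2).div_const 3
      simpa using this
    exact h1.cosh
  have hd : ∀ x : ℝ, HasDerivAt (fun x => 2 * Lam x - (x * (cosh (2 * x / 3) / cosh x)) ^ 2)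
      (2 * x / cosh x ^ 2 * (1 - cosh (2 * x / 3) ^ 2 - 2 / 3 * x * cosh (2 * x / 3) * sinh (2 * x / 3)
        + x * cosh (2 * x / 3) ^ 2 * (sinh x / cosh x))) x := by
    intro x
    have h1 := (hC x).div (hasDerivAt_cosh x) (cosh_ne x)
    have h2 := ((hasDerivAt_id x).mul h1).pow 2
    have h := ((hasDerivAt_Lam x).const_mul 2).sub h2
    refine h.congr_deriv ?_
    have hc := cosh_ne x
    simp only [id, Pi.mul_apply, Pi.div_apply]
    push_cast
    field_simp
    ring
  have hm : MonotoneOn (fun x => 2 * Lam x - (x * (cosh (2 * x / 3) / cosh x)) ^ 2) (Ici 0) := by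
    apply monotoneOn_of_deriv_nonneg (convex_Ici 0)
    · exact fun x _ => (hd x).continuousAt.continuousWithinAt
    · exact fun x _ => (hd x).differentiableAt.differentiableWithinAt
    · intro x hx
      rw [interior_Ici] at hx
      have hx0 : 0 ≤ x := le_of_lt hx
      rw [(hd x).deriv]
      apply mul_nonneg
      · have := cosh_pos x
        positivity
      · have hk := key_third (v := x / 3) (by positivity)
        rw [show 2 * (x / 3) = 2 * x / 3 by ring, show 3 * (x / 3) = x by ring] at hk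
        set Cc := cosh (2 * x / 3) with hCc
        set Ss := sinh (2 * x / 3) with hSs
        have hcp : 0 < Cc := cosh_pos _
        have h5 : Cc ^ 2 = Ss ^ 2 + 1 := cosh_sq _
        have h6 := mul_le_mul_of_nonneg_right hk (sq_nonneg Cc)
        have h7 : ((Ss / Cc) ^ 2 + 2 * x / 3 * (Ss / Cc)) * Cc ^ 2
            = Ss ^ 2 + 2 / 3 * x * Cc * Ss := by
          field_simp
        rw [h7] at h6
        nlinarith [h6]
  have := hm (mem_Ici.mpr le_rfl) (mem_Ici.mpr hu) hu
  simp only [Lam_zero] at this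
  norm_num at this
  exact this

/-- windows ending at or before two thirds -/
theorem crit_small {u α : ℝ} (hu : 0 ≤ u) (hα : |α| ≤ 2 / 3) :
    (u * (cosh (α * u) / cosh u)) ^ 2 ≤ 2 * Lam u := by
  refine le_trans ?_ (crit_third hu)
  have h1 : cosh (α * u) ≤ cosh (2 * u / 3) := by
    rw [cosh_le_cosh, abs_mul, abs_of_nonneg hu, abs_of_nonneg (by positivity : 0 ≤ 2 * u / 3)]
    nlinarith
  have h2 : 0 ≤ u * (cosh (α * u) / cosh u) :=
    mul_nonneg hu (div_nonneg (cosh_pos _).le (cosh_pos _).le)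
  apply pow_le_pow_left₀ h2
  apply mul_le_mul_of_nonneg_left _ hu
  exact div_le_div_of_nonneg_right h1 (cosh_pos _).le

/-! ### Comparison with the Gaussian -/

/-- `G t = ∫_0^t exp (-s²/2) ds`. -/
noncomputable def G (t : ℝ) : ℝ := ∫ s in (0:ℝ)..t, exp (-(1/2) * s ^ 2)

theorem hasDerivAt_G (t : ℝ) : HasDerivAt G (exp (-(1/2) * t ^ 2)) t := by
  have hc : Continuous (fun s : ℝ => exp (-(1/2) * s ^ 2)) := by fun_prop
  exact intervalIntegral.integral_hasDerivAt_right (hc.intervalIntegrable _ _)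
    (hc.stronglyMeasurableAtFilter _ _) hc.continuousAt

theorem G_zero : G 0 = 0 := by unfold G; simp

theorem G_le {t : ℝ} (ht : 0 ≤ t) : G t ≤ √(π / 2) := by
  have h1 : G t = ∫ s in Ioc 0 t, exp (-(1/2) * s ^ 2) := by
    unfold G; rw [intervalIntegral.integral_of_le ht]
  have hint : IntegrableOn (fun s : ℝ => exp (-(1/2) * s ^ 2)) (Ioi 0) :=
    (integrable_exp_neg_mul_sq (by norm_num : (0:ℝ) < 1/2)).integrableOn
  have h2 : ∫ s in Ioc 0 t, exp (-(1/2) * s ^ 2) ≤ ∫ s in Ioi (0:ℝ), exp (-(1/2) * s ^ 2) := by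
    apply setIntegral_mono_set hint
    · exact Filter.Eventually.of_forall (fun s => (exp_pos _).le)
    · exact (show (Set.Ioc (0:ℝ) t) ≤ Set.Ioi 0 from Set.Ioc_subset_Ioi_self).eventuallyLE
  rw [h1]
  refine h2.trans (le_of_eq ?_)
  rw [integral_gaussian_Ioi]
  have : π / (1/2) = 4 * (π / 2) := by ring
  rw [this, Real.sqrt_mul (by norm_num)]
  have : √4 = 2 := by
    rw [show (4:ℝ) = 2 ^ 2 by norm_num]; exact Real.sqrt_sq (by norm_num)
  rw [this]; ring

/-- The perfect square. -/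
theorem perfect_square {R R' η Q : ℝ} (hR : 0 < R) (hη : 0 < η)
    (hQ : Q * η ^ 2 ≤ 2 * (η * R' - R)) : Q ≤ R' ^ 2 / (2 * R) := by
  rw [le_div_iff₀ (by positivity)]
  have h1 : Q * (2 * R) * η ^ 2 ≤ R' ^ 2 * η ^ 2 := by
    have h2 : Q * η ^ 2 * (2 * R) ≤ 2 * (η * R' - R) * (2 * R) :=
      mul_le_mul_of_nonneg_right hQ (by positivity)
    nlinarith [sq_nonneg (η * R' - 2 * R)]
  exact le_of_mul_le_mul_right h1 (by positivity)

/-- Comparison theorem.  `R` is the logarithm of the product of hyperbolic cosines, `U` the value of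
the multilinear extension along the tilt. -/
theorem compare {R R' U U' : ℝ → ℝ} {W : ℝ} (hW : 0 ≤ W)
    (hR0 : R 0 = 0) (hRc : Continuous R)
    (hRpos : ∀ η, 0 < η → 0 < R η) (hR : ∀ η, 0 < η → HasDerivAt R (R' η) η)
    (hU0 : U 0 = 0) (hUc : ContinuousOn U (Ici 0)) (hU : ∀ η, 0 < η → HasDerivAt U (U' η) η)
    (hbd : ∀ η, 0 < η → U' η ≤ exp (-(R η)) * √W * (R' η / √(2 * R η)))
    (hlim : Tendsto U atTop (𝓝 1)) : 2 / π ≤ W := by
  have hd : ∀ η, 0 < η → HasDerivAt (fun η => √W * G (√(2 * R η)) - U η)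
      (√W * (exp (-(R η)) * (R' η / √(2 * R η))) - U' η) η := by
    intro η hη
    have hpos : 0 < 2 * R η := by have := hRpos η hη; linarith
    have h1 : HasDerivAt (fun η => √(2 * R η)) (2 * R' η / (2 * √(2 * R η))) η :=
      ((hR η hη).const_mul 2).sqrt hpos.ne'
    have h2 := (hasDerivAt_G (√(2 * R η))).comp η h1
    have h3 := (h2.const_mul (√W)).sub (hU η hη)
    refine h3.congr_deriv ?_
    rw [Real.sq_sqrt hpos.le]
    have h4 : -(1/2) * (2 * R η) = -(R η) := by ring
    rw [h4]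
    have h5 : √(2 * R η) ≠ 0 := (Real.sqrt_pos.mpr hpos).ne'
    field_simp
  have hGc : Continuous G := continuous_iff_continuousAt.mpr (fun t => (hasDerivAt_G t).continuousAt)
  have hcont : ContinuousOn (fun η => √W * G (√(2 * R η)) - U η) (Ici 0) := by
    apply ContinuousOn.sub _ hUc
    apply Continuous.continuousOn
    fun_prop
  have hm : MonotoneOn (fun η => √W * G (√(2 * R η)) - U η) (Ici 0) := by
    apply monotoneOn_of_deriv_nonneg (convex_Ici 0)
    · exact hcont
    · intro x hx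
      rw [interior_Ici] at hx
      exact (hd x hx).differentiableAt.differentiableWithinAt
    · intro x hx
      rw [interior_Ici] at hx
      rw [(hd x hx).deriv]
      have := hbd x hx
      have h6 : √W * (exp (-(R x)) * (R' x / √(2 * R x)))
          = exp (-(R x)) * √W * (R' x / √(2 * R x)) := by ring
      rw [h6]; linarith
  have hle : ∀ η, 0 ≤ η → U η ≤ √W * √(π / 2) := by
    intro η hη
    have h7 := hm (mem_Ici.mpr le_rfl) (mem_Ici.mpr hη) hη
    simp only [hR0, hU0, mul_zero, Real.sqrt_zero, G_zero, sub_zero] at h7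
    have h8 : √W * G (√(2 * R η)) ≤ √W * √(π / 2) :=
      mul_le_mul_of_nonneg_left (G_le (Real.sqrt_nonneg _)) (Real.sqrt_nonneg _)
    linarith
  have h9 : (1:ℝ) ≤ √W * √(π / 2) :=
    le_of_tendsto hlim (eventually_atTop.mpr ⟨0, fun η hη => hle η hη⟩)
  rw [← Real.sqrt_mul hW] at h9
  have h10 : (1:ℝ) ≤ W * (π / 2) := by
    have := Real.one_le_sqrt.mp h9
    exact this
  rw [div_le_iff₀ pi_pos]
  linarith

theorem Lam_eq (u : ℝ) : u * tanh u - log (cosh u) = Lam u := by
  unfold Lam; rw [Real.tanh_eq_sinh_div_cosh]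

theorem crit_tanh (u : ℝ) (hu : 0 ≤ u) :
    (Real.tanh u) ^ 2 ≤ 2 * (u * Real.tanh u - Real.log (Real.cosh u)) := by
  rw [Lam_eq, Real.tanh_eq_sinh_div_cosh]
  exact crit_uni hu

theorem crit_two_thirds (al u : ℝ) (h0 : 0 ≤ al) (h1 : al ≤ 2 / 3) (hu : 0 ≤ u) :
    (Real.cosh (al * u) / Real.cosh u) ^ 2 * u ^ 2
      ≤ 2 * (u * Real.tanh u - Real.log (Real.cosh u)) := by
  rw [Lam_eq]
  have := crit_small hu (α := al) (by rw [abs_of_nonneg h0]; exact h1)
  calc (Real.cosh (al * u) / Real.cosh u) ^ 2 * u ^ 2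
      = (u * (cosh (al * u) / cosh u)) ^ 2 := by ring
    _ ≤ _ := this

theorem path_compare {i : Type*} (s : Finset i) (a p : i → ℝ) (K : i → ℝ → ℝ) (U : ℝ → ℝ)
    (ha : ∀ j ∈ s, 0 < a j) (hs : s.Nonempty) (hU0 : U 0 = 0)
    (hU : ∀ e : ℝ, 0 ≤ e → HasDerivAt U
      ((∏ j ∈ s, (Real.cosh (a j * e))⁻¹) * ∑ j ∈ s, a j * p j * K j e) e)
    (hlim : Filter.Tendsto U Filter.atTop (nhds 1))
    (hK : ∀ j ∈ s, ∀ e : ℝ, 0 < e → (K j e) ^ 2 * (a j * e) ^ 2
      ≤ 2 * ((a j * e) * Real.tanh (a j * e) - Real.log (Real.cosh (a j * e)))) :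
    2 / Real.pi ≤ ∑ j ∈ s, (p j) ^ 2 := by
  set R : ℝ → ℝ := fun e => ∑ j ∈ s, Real.log (Real.cosh (a j * e)) with hR
  set R' : ℝ → ℝ := fun e => ∑ j ∈ s, a j * Real.tanh (a j * e) with hR'
  have hRd : ∀ e, HasDerivAt R (R' e) e := by
    intro e
    have h1 : ∀ j ∈ s, HasDerivAt (fun e => Real.log (Real.cosh (a j * e)))
        (a j * Real.tanh (a j * e)) e := by
      intro j _
      have h2 : HasDerivAt (fun e : ℝ => a j * e) (a j) e := by
        simpa using (hasDerivAt_id e).const_mul (a j)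
      have h3 := (h2.cosh).log (cosh_ne _)
      refine h3.congr_deriv ?_
      rw [Real.tanh_eq_sinh_div_cosh]; ring
    have h4 := HasDerivAt.sum h1
    refine h4.congr_of_eventuallyEq ?_
    exact Filter.Eventually.of_forall (fun x => by simp [hR])
  have hRpos : ∀ e, 0 < e → 0 < R e := by
    intro e he
    apply Finset.sum_pos _ hs
    intro j hj
    apply Real.log_pos
    rw [Real.one_lt_cosh]
    exact (mul_pos (ha j hj) he).ne'
  apply compare (R := R) (R' := R') (U := U)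
    (U' := fun e => (∏ j ∈ s, (Real.cosh (a j * e))⁻¹) * ∑ j ∈ s, a j * p j * K j e)
    (Finset.sum_nonneg (fun j _ => sq_nonneg _)) _ _ hRpos (fun e _ => hRd e) hU0 _
    (fun e he => hU e he.le) _ hlim
  · simp [hR]
  · exact continuous_iff_continuousAt.mpr (fun t => (hRd t).continuousAt)
  · exact fun e he => (hU e he).continuousAt.continuousWithinAt
  · intro e he
    have hprod : ∏ j ∈ s, (Real.cosh (a j * e))⁻¹ = Real.exp (-(R e)) := by
      rw [hR]
      simp only
      rw [← Finset.sum_neg_distrib, Real.exp_sum]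
      apply Finset.prod_congr rfl
      intro j _
      rw [Real.exp_neg, Real.exp_log (cosh_pos _)]
    rw [hprod, mul_assoc]
    apply mul_le_mul_of_nonneg_left _ (Real.exp_pos _).le
    have hRe := hRpos e he
    have hR'0 : 0 ≤ R' e := by
      apply Finset.sum_nonneg
      intro j hj
      apply mul_nonneg (ha j hj).le
      rw [Real.tanh_eq_sinh_div_cosh]
      exact div_nonneg (sinh_nonneg_iff.mpr (mul_pos (ha j hj) he).le) (cosh_pos _).le
    -- Cauchy-Schwarz
    have hCS : ∑ j ∈ s, a j * p j * K j e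
        ≤ √(∑ j ∈ s, (p j) ^ 2) * √(∑ j ∈ s, (a j * K j e) ^ 2) := by
      have h := Real.sum_mul_le_sqrt_mul_sqrt s p (fun j => a j * K j e)
      refine le_trans (le_of_eq ?_) h
      apply Finset.sum_congr rfl
      intro j _; ring
    refine hCS.trans ?_
    apply mul_le_mul_of_nonneg_left _ (Real.sqrt_nonneg _)
    have hQ : (∑ j ∈ s, (a j * K j e) ^ 2) * e ^ 2 ≤ 2 * (e * R' e - R e) := by
      rw [Finset.sum_mul]
      have : 2 * (e * R' e - R e)
          = ∑ j ∈ s, 2 * ((a j * e) * Real.tanh (a j * e) - Real.log (Real.cosh (a j * e))) := by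
        simp only [hR, hR']
        rw [Finset.mul_sum, ← Finset.sum_sub_distrib, Finset.mul_sum]
        apply Finset.sum_congr rfl
        intro j _; ring
      rw [this]
      apply Finset.sum_le_sum
      intro j hj
      refine le_trans (le_of_eq ?_) (hK j hj e he)
      ring
    have h5 := perfect_square hRe he hQ
    calc √(∑ j ∈ s, (a j * K j e) ^ 2) ≤ √(R' e ^ 2 / (2 * R e)) := Real.sqrt_le_sqrt h5
      _ = R' e / √(2 * R e) := by
          rw [Real.sqrt_div (sq_nonneg _), Real.sqrt_sq hR'0]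

end Pool.Agent.MP_cb3c9c_an.TB
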