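import Mathlib

set_option autoImplicit false

open Finset

namespace Pool.Agent.MP_cb3c9c_an.TB

variable {m : ℕ}

/-- A bit `true` is read as `-1`, a bit `false` as `1`. -/
def sr (b : Bool) : ℝ := if b then -1 else 1

/-- The form. -/
def X (c : Fin m → ℝ) (x : Fin m → Bool) : ℝ := ∑ i, c i * sr (x i)

/-- The form without its `i`-th term. -/
def S (c : Fin m → ℝ) (i : Fin m) (x : Fin m → Bool) : ℝ := ∑ j ∈ univ.erase i, c j * sr (x j)

theorem X_eq (c : Fin m → ℝ) (i : Fin m) (x : Fin m → Bool) :
    X c x = S c i x + c i * sr (x i) := by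
  unfold X S
  rw [sum_erase_add _ _ (mem_univ i)]

theorem sr_cases (b : Bool) : sr b = 1 ∨ sr b = -1 := by
  cases b
  · left; rfl
  · right; rfl

theorem sr_not (b : Bool) : sr (!b) = - sr b := by
  cases b
  · show (-1:ℝ) = -1
    rfl
  · show (1:ℝ) = - -1
    norm_num

/-- flip of the coordinate `i` -/
def flip (i : Fin m) (x : Fin m → Bool) : Fin m → Bool := Function.update x i (!(x i))

theorem flip_at (i : Fin m) (x : Fin m → Bool) : flip i x i = !(x i) := by
  unfold flip
  rw [Function.update_self]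

theorem flip_ne (i : Fin m) (x : Fin m → Bool) (j : Fin m) (h : j ≠ i) : flip i x j = x j := by
  unfold flip
  rw [Function.update_of_ne h]

theorem flip_flip (i : Fin m) (x : Fin m → Bool) : flip i (flip i x) = x := by
  funext j
  by_cases h : j = i
  · subst h
    rw [flip_at, flip_at, Bool.not_not]
  · rw [flip_ne _ _ _ h, flip_ne _ _ _ h]

theorem sum_flip (i : Fin m) (F : (Fin m → Bool) → ℝ) : ∑ x, F (flip i x) = ∑ x, F x :=
  Function.Bijective.sum_comp (Function.Involutive.bijective (flip_flip i)) F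

theorem S_flip (c : Fin m → ℝ) (i : Fin m) (x : Fin m → Bool) : S c i (flip i x) = S c i x := by
  unfold S
  refine sum_congr rfl fun j hj => ?_
  rw [flip_ne _ _ _ (ne_of_mem_erase hj)]

/-- the opposite point -/
def opp (x : Fin m → Bool) : Fin m → Bool := fun i => !(x i)

theorem sum_opp (F : (Fin m → Bool) → ℝ) : ∑ x, F (opp x) = ∑ x, F x := by
  refine Function.Bijective.sum_comp (Function.Involutive.bijective ?_) F
  intro x
  funext i
  exact Bool.not_not _

theorem S_opp (c : Fin m → ℝ) (i : Fin m) (x : Fin m → Bool) : S c i (opp x) = - S c i x := by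
  unfold S opp
  rw [← sum_neg_distrib]
  refine sum_congr rfl fun j _ => ?_
  rw [sr_not]
  ring

theorem X_opp (c : Fin m → ℝ) (x : Fin m → Bool) : X c (opp x) = - X c x := by
  unfold X opp
  rw [← sum_neg_distrib]
  refine sum_congr rfl fun j _ => ?_
  rw [sr_not]
  ring

/-- The pivotal points of a coordinate. -/
noncomputable def piv (c : Fin m → ℝ) (i : Fin m) : Finset (Fin m → Bool) :=
  open Classical in univ.filter fun x => |S c i x| < |c i|

theorem mem_piv {c : Fin m → ℝ} {i : Fin m} {x : Fin m → Bool} :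
    x ∈ piv c i ↔ |S c i x| < |c i| := by
  classical
  unfold piv
  rw [mem_filter]
  exact ⟨fun h => h.2, fun h => ⟨mem_univ _, h⟩⟩

section form

variable (c : Fin m → ℝ) (f : (Fin m → Bool) → ℝ)

/-- The flip of a pivotal coordinate changes `f`, the flip of another one does not. -/
theorem flip_f (hf : ∀ x, f x = 1 ∨ f x = -1) (hpos : ∀ x, 0 < f x * X c x) (i : Fin m)
    (x : Fin m → Bool) :
    c i * (sr (x i) * (f x - f (flip i x))) = if |S c i x| < |c i| then 2 * |c i| else 0 := by
  have h1 := hpos x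
  have h2 := hpos (flip i x)
  rw [X_eq c i] at h1 h2
  rw [S_flip, flip_at, sr_not] at h2
  have hs := sr_cases (x i)
  have hx := hf x
  have hy := hf (flip i x)
  split_ifs with h
  · rw [abs_lt] at h
    rcases le_total 0 (c i) with hc | hc
    · rw [abs_of_nonneg hc] at h ⊢
      rcases hs with hs | hs <;> rcases hx with hx | hx <;> rcases hy with hy | hy <;>
        rw [hs, hx] at h1 ⊢ <;> rw [hs, hy] at h2 <;> rw [hy] <;> nlinarith
    · rw [abs_of_nonpos hc] at h ⊢
      rcases hs with hs | hs <;> rcases hx with hx | hx <;> rcases hy with hy | hy <;>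
        rw [hs, hx] at h1 ⊢ <;> rw [hs, hy] at h2 <;> rw [hy] <;> nlinarith
  · rw [not_lt, le_abs] at h
    have h5 := abs_le.mp (le_refl |c i|)
    have key : f x = f (flip i x) := by
      rcases h with h | h <;>
      rcases hs with hs | hs <;> rcases hx with hx | hx <;> rcases hy with hy | hy <;>
        rw [hs, hx] at h1 <;> rw [hs, hy] at h2 <;> rw [hx, hy] <;> exfalso <;> linarith [h5.1, h5.2]
    rw [key]
    ring

theorem sum_piv (hf : ∀ x, f x = 1 ∨ f x = -1) (hpos : ∀ x, 0 < f x * X c x) (i : Fin m)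
    (e : ℝ) :
    c i * ∑ x, f x * sr (x i) * Real.exp (e * S c i x) =
      |c i| * ∑ x ∈ piv c i, Real.cosh (e * S c i x) := by
  classical
  have h1 : ∑ x, f x * sr (x i) * Real.exp (e * S c i x) =
      ∑ x, f (flip i x) * (- sr (x i)) * Real.exp (e * S c i x) := by
    rw [← sum_flip i]
    refine sum_congr rfl fun x _ => ?_
    rw [S_flip, flip_at, sr_not]
  have h2 : 2 * (c i * ∑ x, f x * sr (x i) * Real.exp (e * S c i x)) =
      ∑ x, (if |S c i x| < |c i| then 2 * |c i| else 0) * Real.exp (e * S c i x) := by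
    have h3 : 2 * (c i * ∑ x, f x * sr (x i) * Real.exp (e * S c i x)) =
        c i * ((∑ x, f x * sr (x i) * Real.exp (e * S c i x)) +
          ∑ x, f (flip i x) * (- sr (x i)) * Real.exp (e * S c i x)) := by
      rw [← h1]; ring
    rw [h3, ← sum_add_distrib, mul_sum]
    refine sum_congr rfl fun x _ => ?_
    rw [← flip_f c f hf hpos i x]
    ring
  have h3 : ∑ x, (if |S c i x| < |c i| then 2 * |c i| else 0) * Real.exp (e * S c i x) =
      ∑ x, (if |S c i x| < |c i| then 2 * |c i| else 0) * Real.exp (-(e * S c i x)) := by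
    rw [← sum_opp]
    refine sum_congr rfl fun x _ => ?_
    rw [S_opp, abs_neg, mul_neg]
  have h4 : 2 * (|c i| * ∑ x ∈ piv c i, Real.cosh (e * S c i x)) =
      ∑ x, (if |S c i x| < |c i| then 2 * |c i| else 0) * Real.cosh (e * S c i x) := by
    unfold piv
    rw [sum_filter, mul_sum, mul_sum]
    refine sum_congr rfl fun x _ => ?_
    split_ifs <;> ring
  have h5 : 2 * (2 * (c i * ∑ x, f x * sr (x i) * Real.exp (e * S c i x))) =
      2 * (2 * (|c i| * ∑ x ∈ piv c i, Real.cosh (e * S c i x))) := by
    rw [h4, h2]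
    have h6 : 2 * ∑ x, (if |S c i x| < |c i| then 2 * |c i| else 0) * Real.exp (e * S c i x) =
        (∑ x, (if |S c i x| < |c i| then 2 * |c i| else 0) * Real.exp (e * S c i x)) +
        ∑ x, (if |S c i x| < |c i| then 2 * |c i| else 0) * Real.exp (-(e * S c i x)) := by
      rw [← h3]; ring
    rw [h6, ← sum_add_distrib, mul_sum]
    refine sum_congr rfl fun x _ => ?_
    rw [Real.cosh_eq]
    ring
  linarith

/-- The product of the `1 / cosh` as an exponential. -/
noncomputable def rho (e : ℝ) : ℝ := Real.exp (-∑ i, Real.log (Real.cosh (c i * e)))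

theorem rho_eq (e : ℝ) : rho c e = ∏ i, (Real.cosh (c i * e))⁻¹ := by
  unfold rho
  rw [← sum_neg_distrib, Real.exp_sum]
  refine prod_congr rfl fun i _ => ?_
  rw [Real.exp_neg, Real.exp_log (Real.cosh_pos _)]

theorem rho_deriv (e : ℝ) :
    HasDerivAt (rho c) (rho c e * (-∑ i, c i * Real.tanh (c i * e))) e := by
  have h1 : HasDerivAt (fun e : ℝ => ∑ i, Real.log (Real.cosh (c i * e)))
      (∑ i, c i * Real.tanh (c i * e)) e := by
    have h2 : ∀ i ∈ (univ : Finset (Fin m)), HasDerivAt (fun e : ℝ => Real.log (Real.cosh (c i * e)))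
        (c i * Real.tanh (c i * e)) e := by
      intro i _
      have h3 : HasDerivAt (fun e : ℝ => c i * e) (c i) e := by
        have := (hasDerivAt_id e).const_mul (c i)
        rw [mul_one] at this
        exact this
      have h4 : HasDerivAt (fun e : ℝ => Real.cosh (c i * e)) (Real.sinh (c i * e) * c i) e :=
        (Real.hasDerivAt_cosh (c i * e)).comp e h3
      have h5 := h4.log (Real.cosh_pos _).ne'
      rw [Real.tanh_eq_sinh_div_cosh]
      have h6 : c i * (Real.sinh (c i * e) / Real.cosh (c i * e)) =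
          Real.sinh (c i * e) * c i / Real.cosh (c i * e) := by ring
      rw [h6]
      exact h5
    exact HasDerivAt.fun_sum h2
  exact h1.neg.exp

/-- The tilted mean of `f`. -/
noncomputable def U (e : ℝ) : ℝ := rho c e * ((∑ x, f x * Real.exp (e * X c x)) / 2 ^ m)

theorem point_id (b : Bool) (u : ℝ) :
    (sr b - Real.tanh u) * Real.exp (u * sr b) = sr b * (Real.cosh u)⁻¹ := by
  have hc := (Real.cosh_pos u).ne'
  rw [Real.tanh_eq_sinh_div_cosh]
  rcases sr_cases b with h | h
  · rw [h]
    field_simp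
    rw [Real.cosh_sub_sinh, ← Real.exp_add]
    have : -u + u = 0 := by ring
    rw [this, Real.exp_zero]
  · rw [h]
    field_simp
    have h1 : -Real.cosh u - Real.sinh u = -Real.exp u := by
      rw [← Real.cosh_add_sinh]; ring
    rw [h1, neg_mul, ← Real.exp_add]
    have : u + -u = 0 := by ring
    rw [this, Real.exp_zero]

theorem mean_deriv (e : ℝ) :
    HasDerivAt (fun e : ℝ => (∑ x, f x * Real.exp (e * X c x)) / 2 ^ m)
      ((∑ x, f x * (X c x * Real.exp (e * X c x))) / 2 ^ m) e := by
  have h2 : ∀ x ∈ (univ : Finset (Fin m → Bool)),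
      HasDerivAt (fun e : ℝ => f x * Real.exp (e * X c x))
        (f x * (X c x * Real.exp (e * X c x))) e := by
    intro x _
    have h3 : HasDerivAt (fun e : ℝ => e * X c x) (X c x) e := by
      have := (hasDerivAt_id e).mul_const (X c x)
      rw [one_mul] at this
      exact this
    have h4 := (h3.exp).const_mul (f x)
    rw [mul_comm (Real.exp (e * X c x)) (X c x)] at h4
    exact h4
  exact (HasDerivAt.fun_sum h2).div_const _

/-- The derivative of the tilted mean. -/
theorem U_deriv (hf : ∀ x, f x = 1 ∨ f x = -1) (hpos : ∀ x, 0 < f x * X c x) (e : ℝ) :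
    HasDerivAt (U c f) (rho c e * ∑ i, |c i| *
      ((∑ x ∈ piv c i, Real.cosh (e * S c i x)) / 2 ^ m * (Real.cosh (c i * e))⁻¹)) e := by
  have h1 := (rho_deriv c e).mul (mean_deriv c f e)
  have key : rho c e * (-∑ i, c i * Real.tanh (c i * e)) *
      ((∑ x, f x * Real.exp (e * X c x)) / 2 ^ m) +
      rho c e * ((∑ x, f x * (X c x * Real.exp (e * X c x))) / 2 ^ m) =
      rho c e * ∑ i, |c i| *
      ((∑ x ∈ piv c i, Real.cosh (e * S c i x)) / 2 ^ m * (Real.cosh (c i * e))⁻¹) := by
    have h2 : ∀ i, |c i| *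
        ((∑ x ∈ piv c i, Real.cosh (e * S c i x)) / 2 ^ m * (Real.cosh (c i * e))⁻¹) =
        (∑ x, f x * (c i * sr (x i) - c i * Real.tanh (c i * e)) * Real.exp (e * X c x))
          / 2 ^ m := by
      intro i
      have h3 : |c i| *
          ((∑ x ∈ piv c i, Real.cosh (e * S c i x)) / 2 ^ m * (Real.cosh (c i * e))⁻¹) =
          (|c i| * ∑ x ∈ piv c i, Real.cosh (e * S c i x)) * (Real.cosh (c i * e))⁻¹ / 2 ^ m := by
        ring
      rw [h3, ← sum_piv c f hf hpos i e, mul_assoc, sum_mul, mul_sum]
      congr 1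
      refine sum_congr rfl fun x _ => ?_
      have h4 := point_id (x i) (c i * e)
      have h5 : Real.exp (e * X c x) = Real.exp (c i * e * sr (x i)) * Real.exp (e * S c i x) := by
        rw [← Real.exp_add, X_eq c i x]
        congr 1
        ring
      rw [h5]
      calc c i * (f x * sr (x i) * Real.exp (e * S c i x) * (Real.cosh (c i * e))⁻¹)
          = c i * f x * Real.exp (e * S c i x) * (sr (x i) * (Real.cosh (c i * e))⁻¹) := by ring
        _ = c i * f x * Real.exp (e * S c i x) *
            ((sr (x i) - Real.tanh (c i * e)) * Real.exp (c i * e * sr (x i))) := by rw [h4]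
        _ = _ := by ring
    rw [sum_congr rfl fun i _ => h2 i, ← sum_div, sum_comm]
    have h6 : ∀ x : Fin m → Bool, ∑ i, f x * (c i * sr (x i) - c i * Real.tanh (c i * e)) *
        Real.exp (e * X c x) = f x * (X c x * Real.exp (e * X c x)) -
        (∑ i, c i * Real.tanh (c i * e)) * (f x * Real.exp (e * X c x)) := by
      intro x
      rw [← sum_mul, ← mul_sum, sum_sub_distrib]
      unfold X
      ring
    rw [sum_congr rfl fun x _ => h6 x, sum_sub_distrib, ← mul_sum]
    ring
  rw [← key]
  exact h1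

theorem U_zero (hf : ∀ x, f x = 1 ∨ f x = -1) (hpos : ∀ x, 0 < f x * X c x) : U c f 0 = 0 := by
  have h1 : ∑ x, f x * Real.exp (0 * X c x) = ∑ x, f (opp x) := by
    rw [sum_opp]
    refine sum_congr rfl fun x _ => ?_
    rw [zero_mul, Real.exp_zero, mul_one]
  have h2 : ∑ x, f (opp x) = - ∑ x, f (opp x) := by
    nth_rewrite 1 [sum_opp]
    rw [← sum_neg_distrib]
    refine sum_congr rfl fun x _ => ?_
    have h3 := hpos x
    have h4 := hpos (opp x)
    rw [X_opp] at h4
    rcases hf x with h5 | h5 <;> rcases hf (opp x) with h6 | h6 <;> rw [h5] at h3 <;>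
      rw [h6] at h4 <;> rw [h5, h6] <;> linarith
  unfold U
  rw [h1]
  have : ∑ x, f (opp x) = 0 := by linarith
  rw [this, zero_div, mul_zero]

/-- The partition function. -/
theorem rho_exp (e : ℝ) : rho c e * ((∑ x : Fin m → Bool, Real.exp (e * X c x)) / 2 ^ m) = 1 := by
  have h1 : ∑ x : Fin m → Bool, Real.exp (e * X c x) = ∏ i, (2 * Real.cosh (c i * e)) := by
    have h2 : ∀ i, 2 * Real.cosh (c i * e) = ∑ b : Bool, Real.exp (c i * e * sr b) := by
      intro i
      rw [Fintype.sum_bool]
      show 2 * Real.cosh (c i * e) = Real.exp (c i * e * (-1)) + Real.exp (c i * e * 1)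
      rw [Real.cosh_eq, mul_one, mul_neg_one]
      ring
    rw [prod_congr rfl fun i _ => h2 i, prod_univ_sum, Fintype.piFinset_univ]
    refine sum_congr rfl fun x _ => ?_
    rw [← Real.exp_sum]
    congr 1
    unfold X
    rw [mul_sum]
    refine sum_congr rfl fun i _ => ?_
    ring
  rw [h1, rho_eq, prod_mul_distrib, prod_const, card_univ, Fintype.card_fin,
    mul_div_cancel_left₀ _ (by positivity : (2:ℝ) ^ m ≠ 0), ← prod_mul_distrib]
  refine prod_eq_one fun i _ => ?_
  exact inv_mul_cancel₀ (Real.cosh_pos _).ne'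

theorem U_lim (hf : ∀ x, f x = 1 ∨ f x = -1) (hpos : ∀ x, 0 < f x * X c x) :
    Filter.Tendsto (U c f) Filter.atTop (nhds 1) := by
  classical
  -- a point with a positive value
  obtain ⟨x₀, hx₀⟩ : ∃ x₀ : Fin m → Bool, 0 < X c x₀ := by
    by_contra h
    push Not at h
    have h1 := hpos (fun _ => false)
    have h2 := hpos (opp fun _ => false)
    have h3 := h (fun _ => false)
    have h4 := h (opp fun _ => false)
    rw [X_opp] at h2 h4
    have h5 : X c (fun _ => false) = 0 := by linarith
    rw [h5, mul_zero] at h1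
    exact lt_irrefl 0 h1
  have hZ : ∀ e : ℝ, rho c e * (Real.exp (e * X c x₀) / 2 ^ m) ≤ 1 := by
    intro e
    rw [← rho_exp c e]
    refine mul_le_mul_of_nonneg_left ?_ (Real.exp_pos _).le
    refine div_le_div_of_nonneg_right ?_ (by positivity)
    exact single_le_sum (f := fun x => Real.exp (e * X c x)) (fun x _ => (Real.exp_pos _).le)
      (mem_univ x₀)
  have hdiff : ∀ e : ℝ, 0 ≤ e → |U c f e - 1| ≤ 2 * 2 ^ m * Real.exp (-(X c x₀ * e)) := by
    intro e he
    have h1 : U c f e - 1 = rho c e * ((∑ x, (f x - 1) * Real.exp (e * X c x)) / 2 ^ m) := by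
      nth_rewrite 1 [← rho_exp c e]
      unfold U
      rw [← mul_sub, ← sub_div, ← sum_sub_distrib]
      congr 3
      funext x
      ring
    have h2 : |∑ x, (f x - 1) * Real.exp (e * X c x)| ≤ 2 * 2 ^ m := by
      refine (abs_sum_le_sum_abs _ _).trans ?_
      have h3 : ∀ x ∈ (univ : Finset (Fin m → Bool)), |(f x - 1) * Real.exp (e * X c x)| ≤ 2 := by
        intro x _
        rcases hf x with h | h
        · rw [h, sub_self, zero_mul, abs_zero]
          norm_num
        · have h4 := hpos x
          rw [h] at h4 ⊢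
          rw [abs_mul, abs_of_pos (Real.exp_pos _)]
          have h5 : Real.exp (e * X c x) ≤ 1 := by
            rw [← Real.exp_zero]
            apply Real.exp_le_exp.mpr
            nlinarith
          have h6 : |(-1:ℝ) - 1| = 2 := by norm_num
          rw [h6]
          linarith
      refine (sum_le_sum h3).trans (le_of_eq ?_)
      rw [sum_const, card_univ, Fintype.card_fun, Fintype.card_bool, Fintype.card_fin, nsmul_eq_mul]
      push_cast
      ring
    have h3 := hZ e
    have h4 : rho c e ≤ 2 ^ m * Real.exp (-(X c x₀ * e)) := by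
      rw [Real.exp_neg, ← div_eq_mul_inv, le_div_iff₀ (Real.exp_pos _), mul_comm (X c x₀) e]
      have h5 : rho c e * (Real.exp (e * X c x₀) / 2 ^ m) * 2 ^ m = rho c e * Real.exp (e * X c x₀) := by
        field_simp
      rw [← h5]
      have h6 := mul_le_mul_of_nonneg_right h3 (by positivity : (0:ℝ) ≤ 2 ^ m)
      linarith
    have hr : 0 < rho c e := Real.exp_pos _
    rw [h1, abs_mul, abs_of_pos hr, abs_div, abs_of_pos (by positivity : (0:ℝ) < 2 ^ m)]
    calc rho c e * (|∑ x, (f x - 1) * Real.exp (e * X c x)| / 2 ^ m)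
        ≤ rho c e * (2 * 2 ^ m / 2 ^ m) := by
          refine mul_le_mul_of_nonneg_left ?_ hr.le
          exact div_le_div_of_nonneg_right h2 (by positivity)
      _ = 2 * rho c e := by
          rw [mul_div_assoc, div_self (by positivity : (2:ℝ) ^ m ≠ 0)]; ring
      _ ≤ 2 * (2 ^ m * Real.exp (-(X c x₀ * e))) := by linarith
      _ = _ := by ring
  have hlim : Filter.Tendsto (fun e : ℝ => 2 * 2 ^ m * Real.exp (-(X c x₀ * e)))
      Filter.atTop (nhds 0) := by
    have h1 : Filter.Tendsto (fun e : ℝ => X c x₀ * e) Filter.atTop Filter.atTop :=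
      Filter.tendsto_id.const_mul_atTop hx₀
    have h2 := Real.tendsto_exp_neg_atTop_nhds_zero.comp h1
    have h3 := h2.const_mul (2 * (2:ℝ) ^ m)
    rw [mul_zero] at h3
    exact h3
  rw [tendsto_iff_norm_sub_tendsto_zero]
  refine squeeze_zero' (Filter.Eventually.of_forall fun e => norm_nonneg _) ?_ hlim
  filter_upwards [Filter.eventually_ge_atTop (0:ℝ)] with e he
  exact hdiff e he

end form

end Pool.Agent.MP_cb3c9c_an.TB
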