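import Pool.Agent.MP_cb3c9c_an.TB.Main

set_option autoImplicit false

open Finset

namespace Pool.Agent.MP_cb3c9c_an.TB

variable {n : ℕ}

/-- The odd function on one more bit. -/
def hm (f : (Fin n → Bool) → ℝ) (y : Fin (n + 1) → Bool) : ℝ :=
  if y 0 then - f (fun i => !(y i.succ)) else f (fun i => y i.succ)

theorem sum_cons (F : (Fin (n + 1) → Bool) → ℝ) :
    ∑ y, F y = ∑ x : Fin n → Bool, F (Fin.cons false x) +
      ∑ x : Fin n → Bool, F (Fin.cons true x) := by
  rw [← (Fin.consEquiv (fun _ : Fin (n + 1) => Bool)).sum_comp F, Fintype.sum_prod_type,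
    Fintype.sum_bool, add_comm]
  rfl

theorem hm_false (f : (Fin n → Bool) → ℝ) (x : Fin n → Bool) :
    hm f (Fin.cons false x) = f x := by
  unfold hm
  simp

theorem hm_true (f : (Fin n → Bool) → ℝ) (x : Fin n → Bool) :
    hm f (Fin.cons true x) = - f (opp x) := by
  unfold hm opp
  simp

theorem sum_zero (f : (Fin n → Bool) → ℝ) :
    ∑ y, hm f y * sr (y 0) = 2 * ∑ x, f x := by
  rw [sum_cons]
  have h1 : ∑ x : Fin n → Bool, hm f (Fin.cons false x) *
      sr ((Fin.cons false x : Fin (n + 1) → Bool) 0) = ∑ x, f x := by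
    refine sum_congr rfl fun x _ => ?_
    rw [hm_false, Fin.cons_zero]
    show f x * 1 = f x
    rw [mul_one]
  have h2 : ∑ x : Fin n → Bool, hm f (Fin.cons true x) *
      sr ((Fin.cons true x : Fin (n + 1) → Bool) 0) = ∑ x, f (opp x) := by
    refine sum_congr rfl fun x _ => ?_
    rw [hm_true, Fin.cons_zero]
    show - f (opp x) * (-1) = f (opp x)
    ring
  rw [h1, h2, sum_opp]
  ring

theorem sum_succ' (f : (Fin n → Bool) → ℝ) (i : Fin n) :
    ∑ y, hm f y * sr (y i.succ) = 2 * ∑ x, f x * sr (x i) := by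
  rw [sum_cons]
  have h1 : ∑ x : Fin n → Bool, hm f (Fin.cons false x) *
      sr ((Fin.cons false x : Fin (n + 1) → Bool) i.succ) = ∑ x, f x * sr (x i) := by
    refine sum_congr rfl fun x _ => ?_
    rw [hm_false, Fin.cons_succ]
  have h2 : ∑ x : Fin n → Bool, hm f (Fin.cons true x) *
      sr ((Fin.cons true x : Fin (n + 1) → Bool) i.succ) =
      ∑ x, (fun x : Fin n → Bool => f x * sr (x i)) (opp x) := by
    refine sum_congr rfl fun x _ => ?_
    rw [hm_true, Fin.cons_succ]
    show - f (opp x) * sr (x i) = f (opp x) * sr (!(x i))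
    rw [sr_not]
    ring
  rw [h1, h2, sum_opp (fun x : Fin n → Bool => f x * sr (x i))]
  ring

theorem hm_pm (f : (Fin n → Bool) → ℝ) (hf : ∀ x, f x = 1 ∨ f x = -1)
    (y : Fin (n + 1) → Bool) : hm f y = 1 ∨ hm f y = -1 := by
  unfold hm
  split_ifs
  · rcases hf (fun i => !(y i.succ)) with h | h
    · right
      rw [h]
    · left
      rw [h, neg_neg]
  · exact hf _

theorem X_zero (c : Fin (n + 1) → ℝ) (y : Fin (n + 1) → Bool) (h : y 0 = false) :
    X c y = c 0 + ∑ i : Fin n, c i.succ * sr (y i.succ) := by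
  unfold X
  rw [Fin.sum_univ_succ, h]
  show c 0 * 1 + _ = _
  rw [mul_one]

theorem hm_pos (f : (Fin n → Bool) → ℝ) (c : Fin (n + 1) → ℝ)
    (hpos : ∀ x, 0 < f x * (c 0 + ∑ i : Fin n, c i.succ * sr (x i)))
    (y : Fin (n + 1) → Bool) : 0 < hm f y * X c y := by
  rcases hy : y 0 with _ | _
  · have h1 : hm f y = f (fun i => y i.succ) := by
      unfold hm
      rw [hy]
      rfl
    rw [h1, X_zero c y hy]
    exact hpos _
  · have h1 : hm f y = - f (fun i => !(y i.succ)) := by
      unfold hm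
      rw [hy]
      rfl
    have h2 : (opp y) 0 = false := by
      show (!(y 0)) = false
      rw [hy]
      rfl
    have h3 := X_zero c (opp y) h2
    have h4 := X_opp c y
    have h5 : X c y = - (c 0 + ∑ i : Fin n, c i.succ * sr (opp y i.succ)) := by
      rw [← h3, h4, neg_neg]
    rw [h1, h5]
    have h6 := hpos (fun i => !(y i.succ))
    have h7 : - f (fun i => !(y i.succ)) * -(c 0 + ∑ i : Fin n, c i.succ * sr (opp y i.succ)) =
        f (fun i => !(y i.succ)) * (c 0 + ∑ i : Fin n, c i.succ * sr (!(y i.succ))) := by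
      show - f (fun i => !(y i.succ)) *
        -(c 0 + ∑ i : Fin n, c i.succ * sr (!(y i.succ))) = _
      ring
    rw [h7]
    exact h6

/-- The theorem for a threshold function with a constant term. -/
theorem window_final (f : (Fin n → Bool) → ℝ) (c : Fin (n + 1) → ℝ)
    (hf : ∀ x, f x = 1 ∨ f x = -1)
    (hpos : ∀ x, 0 < f x * (c 0 + ∑ i : Fin n, c i.succ * sr (x i)))
    (hw : ∀ i, Win c i) :
    2 / Real.pi ≤ ((∑ x, f x) / 2 ^ n) ^ 2 + ∑ i, ((∑ x, f x * sr (x i)) / 2 ^ n) ^ 2 := by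
  have h := window_main c (hm f) (hm_pm f hf) (hm_pos f c hpos) hw
  rw [Fin.sum_univ_succ, sum_zero] at h
  have h2 : (2:ℝ) ^ n ≠ 0 := pow_ne_zero n two_ne_zero
  have h1 : ∀ A : ℝ, 2 * A / 2 ^ (n + 1) = A / 2 ^ n := by
    intro A
    rw [pow_succ]
    field_simp
  rw [h1] at h
  refine h.trans_eq ?_
  congr 1
  refine sum_congr rfl fun i _ => ?_
  rw [sum_succ', h1]

theorem three_abs (s c : ℝ) (h : |s| < |c|) (h1 : |c| ≤ 3 * |s + c|) (h2 : |c| ≤ 3 * |s - c|) :
    3 * |s| ≤ 2 * |c| := by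
  rcases le_total 0 s with hs | hs <;> rcases le_total 0 c with hc | hc
  · rw [abs_of_nonneg hs, abs_of_nonneg hc] at *
    rw [abs_of_nonpos (by linarith)] at h2
    linarith
  · rw [abs_of_nonneg hs, abs_of_nonpos hc] at *
    rw [abs_of_nonpos (by linarith)] at h1
    linarith
  · rw [abs_of_nonpos hs, abs_of_nonneg hc] at *
    rw [abs_of_nonneg (by linarith)] at h1
    linarith
  · rw [abs_of_nonpos hs, abs_of_nonpos hc] at *
    rw [abs_of_nonneg (by linarith)] at h2
    linarith

/-- All the weights are at most three times the margin. -/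
theorem win_of_margin (c : Fin (n + 1) → ℝ)
    (h : ∀ i, ∀ x : Fin n → Bool, |c i| ≤ 3 * |c 0 + ∑ j : Fin n, c j.succ * sr (x j)|)
    (i : Fin (n + 1)) : Win c i := by
  have hX : ∀ y : Fin (n + 1) → Bool, |c i| ≤ 3 * |X c y| := by
    intro y
    rcases hy : y 0 with _ | _
    · rw [X_zero c y hy]
      exact h i _
    · have h2 : (opp y) 0 = false := by
        show (!(y 0)) = false
        rw [hy]
        rfl
      have h3 := X_zero c (opp y) h2
      have h4 := X_opp c y
      have h5 : X c y = - X c (opp y) := by rw [h4, neg_neg]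
      rw [h5, abs_neg, h3]
      exact h i _
  refine Or.inl fun x hx => ?_
  have h1 := hX x
  have h2 := hX (flip i x)
  rw [X_eq c i] at h1 h2
  rw [S_flip, flip_at, sr_not] at h2
  rcases sr_cases (x i) with h3 | h3
  · rw [h3, mul_one] at h1
    rw [h3, mul_neg, mul_one, ← sub_eq_add_neg] at h2
    exact three_abs _ _ hx h1 h2
  · rw [h3, mul_neg, mul_one, ← sub_eq_add_neg] at h1
    rw [h3, neg_neg, mul_one] at h2
    exact three_abs _ _ hx h2 h1

end Pool.Agent.MP_cb3c9c_an.TB
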