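import Mathlib

set_option autoImplicit false

open Finset

namespace Pool.Agent.MP_cb3c9c_an.TB

theorem cosh_int (y a e : ℝ) (hy : 0 ≤ y) (hya : y ≤ a) :
    ∫ t in (0:ℝ)..a, e ^ 2 * Real.cosh (e * t) * max (y - t) 0 = Real.cosh (e * y) - 1 := by
  have hc : Continuous fun t : ℝ => e ^ 2 * Real.cosh (e * t) * max (y - t) 0 := by
    have h1 : Continuous fun t : ℝ => Real.cosh (e * t) :=
      Real.continuous_cosh.comp (continuous_const.mul continuous_id)
    exact (continuous_const.mul h1).mul ((continuous_const.sub continuous_id).max continuous_const)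
  rw [← intervalIntegral.integral_add_adjacent_intervals (hc.intervalIntegrable 0 y)
    (hc.intervalIntegrable y a)]
  have h2 : ∫ t in y..a, e ^ 2 * Real.cosh (e * t) * max (y - t) 0 = 0 := by
    have h3 : ∫ t in y..a, e ^ 2 * Real.cosh (e * t) * max (y - t) 0 = ∫ t in y..a, (0:ℝ) := by
      apply intervalIntegral.integral_congr
      intro t ht
      rw [Set.uIcc_of_le hya] at ht
      show e ^ 2 * Real.cosh (e * t) * max (y - t) 0 = 0
      rw [max_eq_right (by linarith [ht.1]), mul_zero]
    rw [h3, intervalIntegral.integral_zero]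
  have h4 : ∫ t in (0:ℝ)..y, e ^ 2 * Real.cosh (e * t) * max (y - t) 0 =
      ∫ t in (0:ℝ)..y, (e ^ 2 * Real.cosh (e * t) * (y - t)) := by
    apply intervalIntegral.integral_congr
    intro t ht
    rw [Set.uIcc_of_le hy] at ht
    show e ^ 2 * Real.cosh (e * t) * max (y - t) 0 = e ^ 2 * Real.cosh (e * t) * (y - t)
    rw [max_eq_left (by linarith [ht.2])]
  have h5 : ∀ t ∈ Set.uIcc (0:ℝ) y, HasDerivAt
      (fun t : ℝ => e * Real.sinh (e * t) * (y - t) + Real.cosh (e * t))
      (e ^ 2 * Real.cosh (e * t) * (y - t)) t := by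
    intro t _
    have k1 : HasDerivAt (fun t : ℝ => e * t) e t := by
      have := (hasDerivAt_id t).const_mul e
      rw [mul_one] at this
      exact this
    have k2 : HasDerivAt (fun t : ℝ => Real.sinh (e * t)) (Real.cosh (e * t) * e) t :=
      (Real.hasDerivAt_sinh (e * t)).comp t k1
    have k3 : HasDerivAt (fun t : ℝ => Real.cosh (e * t)) (Real.sinh (e * t) * e) t :=
      (Real.hasDerivAt_cosh (e * t)).comp t k1
    have k4 : HasDerivAt (fun t : ℝ => y - t) (-1) t := (hasDerivAt_id t).const_sub y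
    have k5 := ((k2.const_mul e).mul k4).add k3
    have k6 : e * (Real.cosh (e * t) * e) * (y - t) + e * Real.sinh (e * t) * (-1) +
        Real.sinh (e * t) * e = e ^ 2 * Real.cosh (e * t) * (y - t) := by ring
    rw [← k6]
    exact k5
  have hc2 : Continuous fun t : ℝ => e ^ 2 * Real.cosh (e * t) * (y - t) := by
    have h1 : Continuous fun t : ℝ => Real.cosh (e * t) :=
      Real.continuous_cosh.comp (continuous_const.mul continuous_id)
    exact (continuous_const.mul h1).mul (continuous_const.sub continuous_id)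
  rw [h2, h4, intervalIntegral.integral_eq_sub_of_hasDerivAt h5 (hc2.intervalIntegrable 0 y)]
  rw [mul_zero, Real.sinh_zero, Real.cosh_zero]
  ring

theorem sq_int (a e : ℝ) (he : 0 < e) :
    ∫ t in (0:ℝ)..a, e ^ 2 * Real.cosh (e * t) * (a - t) ^ 2 =
      2 / e * Real.sinh (e * a) - 2 * a := by
  have h5 : ∀ t ∈ Set.uIcc (0:ℝ) a, HasDerivAt
      (fun t : ℝ => e * Real.sinh (e * t) * (a - t) ^ 2 + 2 * Real.cosh (e * t) * (a - t) +
        2 / e * Real.sinh (e * t))
      (e ^ 2 * Real.cosh (e * t) * (a - t) ^ 2) t := by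
    intro t _
    have k1 : HasDerivAt (fun t : ℝ => e * t) e t := by
      have := (hasDerivAt_id t).const_mul e
      rw [mul_one] at this
      exact this
    have k2 : HasDerivAt (fun t : ℝ => Real.sinh (e * t)) (Real.cosh (e * t) * e) t :=
      (Real.hasDerivAt_sinh (e * t)).comp t k1
    have k3 : HasDerivAt (fun t : ℝ => Real.cosh (e * t)) (Real.sinh (e * t) * e) t :=
      (Real.hasDerivAt_cosh (e * t)).comp t k1
    have k4 : HasDerivAt (fun t : ℝ => a - t) (-1) t := (hasDerivAt_id t).const_sub a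
    have k4' : HasDerivAt (fun t : ℝ => (a - t) ^ 2) (2 * (a - t) ^ 1 * (-1)) t := by
      have := k4.pow 2
      exact_mod_cast this
    have k5 := (((k2.const_mul e).mul k4').add ((k3.const_mul 2).mul k4)).add
      (k2.const_mul (2 / e))
    have k6 : e * (Real.cosh (e * t) * e) * (a - t) ^ 2 +
        e * Real.sinh (e * t) * (2 * (a - t) ^ 1 * (-1)) +
        (2 * (Real.sinh (e * t) * e) * (a - t) + 2 * Real.cosh (e * t) * (-1)) +
        2 / e * (Real.cosh (e * t) * e) = e ^ 2 * Real.cosh (e * t) * (a - t) ^ 2 := by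
      field_simp
      ring
    rw [← k6]
    exact k5
  have hc2 : Continuous fun t : ℝ => e ^ 2 * Real.cosh (e * t) * (a - t) ^ 2 := by
    have h1 : Continuous fun t : ℝ => Real.cosh (e * t) :=
      Real.continuous_cosh.comp (continuous_const.mul continuous_id)
    exact (continuous_const.mul h1).mul ((continuous_const.sub continuous_id).pow 2)
  rw [intervalIntegral.integral_eq_sub_of_hasDerivAt h5 (hc2.intervalIntegrable 0 a)]
  rw [mul_zero, Real.sinh_zero, Real.cosh_zero]
  ring

/-- Increasing convex order: a law on `[0, a]` below the uniform one has a smaller mean of `cosh`. -/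
theorem icx_cosh {α : Type*} (s : Finset α) (y : α → ℝ) (a e : ℝ) (ha : 0 < a) (he : 0 < e)
    (hy : ∀ x ∈ s, 0 ≤ y x ∧ y x ≤ a)
    (h : ∀ t, 0 ≤ t → t ≤ a → 2 * a * ∑ x ∈ s, max (y x - t) 0 ≤ (a - t) ^ 2 * s.card) :
    (∑ x ∈ s, Real.cosh (e * y x)) * (e * a) ≤ s.card * Real.sinh (e * a) := by
  have hc1 : ∀ x : α, Continuous fun t : ℝ => e ^ 2 * Real.cosh (e * t) * max (y x - t) 0 := by
    intro x
    have h1 : Continuous fun t : ℝ => Real.cosh (e * t) :=
      Real.continuous_cosh.comp (continuous_const.mul continuous_id)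
    exact (continuous_const.mul h1).mul ((continuous_const.sub continuous_id).max continuous_const)
  have hc2 : Continuous fun t : ℝ => e ^ 2 * Real.cosh (e * t) * (a - t) ^ 2 := by
    have h1 : Continuous fun t : ℝ => Real.cosh (e * t) :=
      Real.continuous_cosh.comp (continuous_const.mul continuous_id)
    exact (continuous_const.mul h1).mul ((continuous_const.sub continuous_id).pow 2)
  have h1 : ∫ t in (0:ℝ)..a, ∑ x ∈ s, e ^ 2 * Real.cosh (e * t) * max (y x - t) 0 =
      ∑ x ∈ s, (Real.cosh (e * y x) - 1) := by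
    rw [intervalIntegral.integral_finsetSum fun x _ => (hc1 x).intervalIntegrable 0 a]
    exact sum_congr rfl fun x hx => cosh_int (y x) a e (hy x hx).1 (hy x hx).2
  have h2 : ∫ t in (0:ℝ)..a, 2 * a * ∑ x ∈ s, e ^ 2 * Real.cosh (e * t) * max (y x - t) 0 ≤
      ∫ t in (0:ℝ)..a, (s.card : ℝ) * (e ^ 2 * Real.cosh (e * t) * (a - t) ^ 2) := by
    apply intervalIntegral.integral_mono_on ha.le
    · exact (continuous_const.mul (continuous_finsetSum s fun x _ => hc1 x)).intervalIntegrable 0 a
    · exact (continuous_const.mul hc2).intervalIntegrable 0 a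
    · intro t ht
      have h3 := h t ht.1 ht.2
      have h4 : 0 ≤ e ^ 2 * Real.cosh (e * t) := by
        have := Real.cosh_pos (e * t)
        positivity
      rw [← mul_sum]
      have h5 := mul_le_mul_of_nonneg_left h3 h4
      calc 2 * a * (e ^ 2 * Real.cosh (e * t) * ∑ x ∈ s, max (y x - t) 0)
          = e ^ 2 * Real.cosh (e * t) * (2 * a * ∑ x ∈ s, max (y x - t) 0) := by ring
        _ ≤ e ^ 2 * Real.cosh (e * t) * ((a - t) ^ 2 * s.card) := h5
        _ = _ := by ring
  rw [intervalIntegral.integral_const_mul, intervalIntegral.integral_const_mul, h1,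
    sq_int a e he, sum_sub_distrib, sum_const, nsmul_eq_mul, mul_one] at h2
  have h3 : (2 * (∑ x ∈ s, Real.cosh (e * y x)) * a) * e ≤
      (s.card * (2 / e * Real.sinh (e * a))) * e := by
    refine mul_le_mul_of_nonneg_right ?_ he.le
    linarith
  have h4 : (s.card * (2 / e * Real.sinh (e * a))) * e = 2 * (s.card * Real.sinh (e * a)) := by
    field_simp
  rw [h4] at h3
  linarith

end Pool.Agent.MP_cb3c9c_an.TB
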