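import Pool.Agent.MP_cb3c9c_an.TB.Ana
import Pool.Agent.MP_cb3c9c_an.TB.Comb
import Pool.Agent.MP_cb3c9c_an.TB.Icx

set_option autoImplicit false

open Finset

namespace Pool.Agent.MP_cb3c9c_an.TB

variable {m : ℕ}

/-- The three kinds of windows. -/
def Win (c : Fin m → ℝ) (i : Fin m) : Prop :=
  (∀ x, |S c i x| < |c i| → 3 * |S c i x| ≤ 2 * |c i|) ∨
  (∀ t : ℝ, 0 ≤ t → t ≤ |c i| →
    2 * |c i| * ∑ x ∈ piv c i, max (|S c i x| - t) 0 ≤ (|c i| - t) ^ 2 * (piv c i).card) ∨
  (∀ e : ℝ, 0 < e → ((|c i| * e) * ∑ x ∈ piv c i, Real.cosh (e * S c i x)) ^ 2 ≤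
    2 * ((|c i| * e) * Real.tanh (|c i| * e) - Real.log (Real.cosh (|c i| * e))) *
      ((piv c i).card * Real.cosh (|c i| * e)) ^ 2)

/-- The normalised mean of `cosh` in a window. -/
noncomputable def KK (c : Fin m → ℝ) (i : Fin m) (e : ℝ) : ℝ :=
  (∑ x ∈ piv c i, Real.cosh (e * S c i x)) / (piv c i).card * (Real.cosh (|c i| * e))⁻¹

theorem KK_bound (c : Fin m → ℝ) (i : Fin m) (hi : c i ≠ 0) (hw : Win c i) (e : ℝ) (he : 0 < e) :
    (KK c i e) ^ 2 * (|c i| * e) ^ 2 ≤
      2 * ((|c i| * e) * Real.tanh (|c i| * e) - Real.log (Real.cosh (|c i| * e))) := by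
  have ha : 0 < |c i| := abs_pos.mpr hi
  have hu : 0 < |c i| * e := mul_pos ha he
  have hch := Real.cosh_pos (|c i| * e)
  rcases Nat.eq_zero_or_pos (piv c i).card with h0 | hN
  · have h1 : KK c i e = 0 := by
      unfold KK
      rw [h0, Nat.cast_zero, div_zero, zero_mul]
    rw [h1]
    have h2 := crit_tanh (|c i| * e) hu.le
    have h3 := sq_nonneg (Real.tanh (|c i| * e))
    rw [zero_pow two_ne_zero, zero_mul]
    exact h3.trans h2
  have hN' : (0:ℝ) < (piv c i).card := by exact_mod_cast hN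
  have hK0 : 0 ≤ KK c i e := by
    unfold KK
    have h1 : 0 ≤ ∑ x ∈ piv c i, Real.cosh (e * S c i x) :=
      sum_nonneg fun x _ => (Real.cosh_pos _).le
    exact mul_nonneg (div_nonneg h1 hN'.le) (inv_nonneg.mpr hch.le)
  rcases hw with h | h | h
  · have h1 : ∑ x ∈ piv c i, Real.cosh (e * S c i x) ≤
        (piv c i).card * Real.cosh (2 / 3 * (|c i| * e)) := by
      rw [← nsmul_eq_mul]
      refine sum_le_card_nsmul _ _ _ fun x hx => ?_
      have h2 := h x (mem_piv.mp hx)
      have h3 := mul_le_mul_of_nonneg_left h2 he.le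
      have h4 : |2 / 3 * (|c i| * e)| = 2 / 3 * (|c i| * e) := abs_of_pos (by positivity)
      have h5 : |e * S c i x| = e * |S c i x| := by rw [abs_mul, abs_of_pos he]
      rw [Real.cosh_le_cosh, h4, h5]
      linarith
    have h2 : KK c i e ≤ Real.cosh (2 / 3 * (|c i| * e)) / Real.cosh (|c i| * e) := by
      unfold KK
      rw [div_eq_mul_inv (Real.cosh (2 / 3 * (|c i| * e)))]
      refine mul_le_mul_of_nonneg_right ?_ (inv_nonneg.mpr hch.le)
      rw [div_le_iff₀ hN', mul_comm]
      exact h1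
    have h3 := crit_two_thirds (2 / 3) (|c i| * e) (by norm_num) le_rfl hu.le
    refine le_trans ?_ h3
    refine mul_le_mul_of_nonneg_right ?_ (sq_nonneg _)
    exact pow_le_pow_left₀ hK0 h2 2
  · have h1 : (∑ x ∈ piv c i, Real.cosh (e * |S c i x|)) * (e * |c i|) ≤
        (piv c i).card * Real.sinh (e * |c i|) := by
      refine icx_cosh (piv c i) (fun x => |S c i x|) |c i| e ha he ?_ h
      intro x hx
      exact ⟨abs_nonneg _, (mem_piv.mp hx).le⟩
    have h2 : ∑ x ∈ piv c i, Real.cosh (e * |S c i x|) =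
        ∑ x ∈ piv c i, Real.cosh (e * S c i x) := by
      refine sum_congr rfl fun x _ => ?_
      rw [← Real.cosh_abs (e * S c i x), abs_mul, abs_of_pos he]
    rw [h2, mul_comm e |c i|] at h1
    have h3 : KK c i e * (|c i| * e) ≤ Real.tanh (|c i| * e) := by
      rw [Real.tanh_eq_sinh_div_cosh, le_div_iff₀ hch]
      unfold KK
      have h4 : (∑ x ∈ piv c i, Real.cosh (e * S c i x)) / (piv c i).card *
          (Real.cosh (|c i| * e))⁻¹ * (|c i| * e) * Real.cosh (|c i| * e) =
          (∑ x ∈ piv c i, Real.cosh (e * S c i x)) * (|c i| * e) / (piv c i).card := by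
        field_simp
      rw [h4, div_le_iff₀ hN', mul_comm (Real.sinh (|c i| * e))]
      exact h1
    have h5 := crit_tanh (|c i| * e) hu.le
    refine le_trans ?_ h5
    rw [← mul_pow]
    exact pow_le_pow_left₀ (mul_nonneg hK0 hu.le) h3 2
  · have h1 := h e he
    have h2 : 0 < ((piv c i).card : ℝ) * Real.cosh (|c i| * e) := mul_pos hN' hch
    have h3 : KK c i e * (|c i| * e) =
        ((|c i| * e) * ∑ x ∈ piv c i, Real.cosh (e * S c i x)) /
          ((piv c i).card * Real.cosh (|c i| * e)) := by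
      unfold KK
      have h5 := hN'.ne'
      have h6 := hch.ne'
      field_simp
    rw [← mul_pow, h3, div_pow, div_le_iff₀ (pow_pos h2 2)]
    exact h1

/-- The theorem for a homogeneous form. -/
theorem window_main (c : Fin m → ℝ) (f : (Fin m → Bool) → ℝ) (hf : ∀ x, f x = 1 ∨ f x = -1)
    (hpos : ∀ x, 0 < f x * X c x) (hw : ∀ i, Win c i) :
    2 / Real.pi ≤ ∑ i, ((∑ x, f x * sr (x i)) / 2 ^ m) ^ 2 := by
  classical
  set s : Finset (Fin m) := univ.filter fun i => c i ≠ 0 with hs
  have hmem : ∀ i, i ∈ s ↔ c i ≠ 0 := by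
    intro i
    rw [hs, mem_filter]
    exact ⟨fun h => h.2, fun h => ⟨mem_univ _, h⟩⟩
  have hne : s.Nonempty := by
    by_contra h
    rw [not_nonempty_iff_eq_empty] at h
    have h1 : X c (fun _ => false) = 0 := by
      unfold X
      refine sum_eq_zero fun i _ => ?_
      have h2 : c i = 0 := by
        by_contra h3
        have h4 := (hmem i).mpr h3
        rw [h] at h4
        exact absurd h4 (notMem_empty i)
      rw [h2, zero_mul]
    have h2 := hpos fun _ => false
    rw [h1, mul_zero] at h2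
    exact lt_irrefl 0 h2
  have hp : ∀ i, i ∈ s → ((∑ x, f x * sr (x i)) / 2 ^ m) ^ 2 =
      (((piv c i).card : ℝ) / 2 ^ m) ^ 2 := by
    intro i hi
    have h1 := sum_piv c f hf hpos i 0
    have h2 : ∑ x, f x * sr (x i) * Real.exp (0 * S c i x) = ∑ x, f x * sr (x i) := by
      refine sum_congr rfl fun x _ => ?_
      rw [zero_mul, Real.exp_zero, mul_one]
    have h3 : ∑ x ∈ piv c i, Real.cosh (0 * S c i x) = (piv c i).card := by
      rw [← mul_one ((piv c i).card : ℝ), ← nsmul_eq_mul, ← sum_const]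
      refine sum_congr rfl fun x _ => ?_
      rw [zero_mul, Real.cosh_zero]
    rw [h2, h3] at h1
    have h4 : (c i) ^ 2 * (∑ x, f x * sr (x i)) ^ 2 = (c i) ^ 2 * ((piv c i).card : ℝ) ^ 2 := by
      rw [← mul_pow, h1, mul_pow, sq_abs]
    have h5 : (c i) ^ 2 ≠ 0 := pow_ne_zero 2 ((hmem i).mp hi)
    rw [div_pow, div_pow, mul_left_cancel₀ h5 h4]
  have key := path_compare s (fun i => |c i|) (fun i => ((piv c i).card : ℝ) / 2 ^ m) (KK c)
    (U c f) (fun i hi => abs_pos.mpr ((hmem i).mp hi)) hne (U_zero c f hf hpos) ?_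
    (U_lim c f hf hpos) (fun i hi e he => KK_bound c i ((hmem i).mp hi) (hw i) e he)
  · refine key.trans ?_
    rw [← sum_congr rfl fun i hi => hp i hi]
    exact sum_le_sum_of_subset_of_nonneg (subset_univ s) fun i _ _ => sq_nonneg _
  · intro e _
    have h1 := U_deriv c f hf hpos e
    have h2 : (∏ i ∈ s, (Real.cosh (|c i| * e))⁻¹) *
        ∑ i ∈ s, |c i| * (((piv c i).card : ℝ) / 2 ^ m) * KK c i e =
        rho c e * ∑ i, |c i| *
        ((∑ x ∈ piv c i, Real.cosh (e * S c i x)) / 2 ^ m * (Real.cosh (c i * e))⁻¹) := by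
      have h3 : ∀ i, Real.cosh (|c i| * e) = Real.cosh (c i * e) := by
        intro i
        rw [← Real.cosh_abs (|c i| * e), ← Real.cosh_abs (c i * e), abs_mul, abs_mul, abs_abs]
      rw [rho_eq]
      congr 1
      · rw [prod_congr rfl fun i _ => by rw [h3 i]]
        refine prod_subset (subset_univ s) fun i _ hi => ?_
        have h4 : c i = 0 := by
          by_contra h
          exact hi ((hmem i).mpr h)
        rw [h4, zero_mul, Real.cosh_zero, inv_one]
      · have h5 : ∀ i, |c i| * (((piv c i).card : ℝ) / 2 ^ m) * KK c i e =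
            |c i| * ((∑ x ∈ piv c i, Real.cosh (e * S c i x)) / 2 ^ m *
              (Real.cosh (c i * e))⁻¹) := by
          intro i
          unfold KK
          rw [h3 i]
          rcases Nat.eq_zero_or_pos (piv c i).card with h0 | hN
          · have h6 : piv c i = ∅ := card_eq_zero.mp h0
            rw [h6, sum_empty, card_empty]
            simp only [Nat.cast_zero, zero_div, mul_zero, zero_mul]
          · have hN' : ((piv c i).card : ℝ) ≠ 0 := by
              have : (0:ℝ) < (piv c i).card := by exact_mod_cast hN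
              exact this.ne'
            have hch := (Real.cosh_pos (c i * e)).ne'
            field_simp
        rw [sum_congr rfl fun i _ => h5 i]
        refine sum_subset (subset_univ s) fun i _ hi => ?_
        have h4 : c i = 0 := by
          by_contra h
          exact hi ((hmem i).mpr h)
        rw [h4, abs_zero, zero_mul]
    rw [h2]
    exact h1

end Pool.Agent.MP_cb3c9c_an.TB
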