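import Mathlib

set_option autoImplicit false

open Real Finset MeasureTheory Set Filter Topology

namespace Pool.Agent.MP_cb3c9c_an.TB

/-- Taylor formula with integral remainder for `cosh (η s)`. -/
theorem cosh_taylor (η s c : ℝ) (hs : 0 ≤ s) (hsc : s ≤ c) :
    ∫ t in (0:ℝ)..c, η ^ 2 * cosh (η * t) * max (s - t) 0 = cosh (η * s) - 1 := by
  have hcont : Continuous (fun t : ℝ => η ^ 2 * cosh (η * t) * max (s - t) 0) := by fun_prop
  rw [← intervalIntegral.integral_add_adjacent_intervals (b := s)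
    (hcont.intervalIntegrable _ _) (hcont.intervalIntegrable _ _)]
  have h1 : ∫ t in (0:ℝ)..s, η ^ 2 * cosh (η * t) * max (s - t) 0
      = ∫ t in (0:ℝ)..s, η ^ 2 * cosh (η * t) * (s - t) := by
    apply intervalIntegral.integral_congr
    intro t ht
    rw [uIcc_of_le hs] at ht
    simp only
    rw [max_eq_left (by linarith [ht.2])]
  have h2 : ∫ t in s..c, η ^ 2 * cosh (η * t) * max (s - t) 0 = 0 := by
    rw [intervalIntegral.integral_congr (g := fun _ => (0:ℝ))]
    · simp
    · intro t ht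
      rw [uIcc_of_le hsc] at ht
      simp only
      rw [max_eq_right (by linarith [ht.1]), mul_zero]
  rw [h1, h2, add_zero]
  have hd : ∀ t ∈ uIcc (0:ℝ) s, HasDerivAt (fun t => η * sinh (η * t) * (s - t) + cosh (η * t))
      (η ^ 2 * cosh (η * t) * (s - t)) t := by
    intro t _
    have h3 : HasDerivAt (fun t : ℝ => η * t) η t := by
      simpa using (hasDerivAt_id t).const_mul η
    have h4 := ((h3.sinh).const_mul η).mul ((hasDerivAt_const t s).sub (hasDerivAt_id t))
    have h5 := h4.add h3.cosh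
    refine h5.congr_deriv ?_
    simp only [Pi.sub_apply, id]
    ring
  rw [intervalIntegral.integral_eq_sub_of_hasDerivAt hd
    ((by fun_prop : Continuous (fun t : ℝ => η ^ 2 * cosh (η * t) * (s - t))).intervalIntegrable _ _)]
  simp

/-- The same for the uniform law. -/
theorem unif_taylor (η c : ℝ) :
    ∫ t in (0:ℝ)..c, η ^ 2 * cosh (η * t) * (c - t) ^ 2 = 2 * (sinh (η * c) / η - c) ∨ η = 0 := by
  by_cases hη : η = 0
  · right; exact hη
  left
  have hd : ∀ t ∈ uIcc (0:ℝ) c, HasDerivAt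
      (fun t => η * sinh (η * t) * (c - t) ^ 2 + 2 * cosh (η * t) * (c - t) + 2 * (sinh (η * t) / η))
      (η ^ 2 * cosh (η * t) * (c - t) ^ 2) t := by
    intro t _
    have h3 : HasDerivAt (fun t : ℝ => η * t) η t := by
      simpa using (hasDerivAt_id t).const_mul η
    have h6 : HasDerivAt (fun t : ℝ => c - t) (-1) t :=
      ((hasDerivAt_const t c).sub (hasDerivAt_id t)).congr_deriv (by norm_num)
    have h4 := ((h3.sinh).const_mul η).mul (h6.pow 2)
    have h5 := ((h3.cosh).const_mul 2).mul h6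
    have h7 := ((h3.sinh).div_const η).const_mul 2
    have h8 := (h4.add h5).add h7
    refine h8.congr_deriv ?_
    simp only [Pi.pow_apply]
    push_cast
    field_simp
    ring
  rw [intervalIntegral.integral_eq_sub_of_hasDerivAt hd
    ((by fun_prop : Continuous (fun t : ℝ => η ^ 2 * cosh (η * t) * (c - t) ^ 2)).intervalIntegrable _ _)]
  simp
  ring

/-- Windows below the uniform law in the increasing convex order. -/
theorem win_icx {ι : Type*} (D : Finset ι) (S : ι → ℝ) (c η : ℝ) (hc : 0 < c) (hη : 0 ≤ η)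
    (hS : ∀ x ∈ D, |S x| ≤ c)
    (hA : ∀ t, 0 ≤ t → t ≤ c →
      2 * c * ∑ x ∈ D, max (|S x| - t) 0 ≤ (c - t) ^ 2 * (D.card : ℝ)) :
    (∑ x ∈ D, cosh (η * S x)) * (η * c) ≤ (D.card : ℝ) * sinh (η * c) := by
  rcases hη.eq_or_lt with h0 | hpos
  · rw [← h0]; simp
  have h1 : ∑ x ∈ D, cosh (η * S x)
      = (D.card : ℝ) + ∫ t in (0:ℝ)..c, η ^ 2 * cosh (η * t) * ∑ x ∈ D, max (|S x| - t) 0 := by
    have h2 : (fun t : ℝ => η ^ 2 * cosh (η * t) * ∑ x ∈ D, max (|S x| - t) 0)
        = fun t => ∑ x ∈ D, η ^ 2 * cosh (η * t) * max (|S x| - t) 0 := by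
      funext t; rw [mul_sum]
    rw [h2, intervalIntegral.integral_finsetSum]
    · have h3 : ∀ x ∈ D, ∫ t in (0:ℝ)..c, η ^ 2 * cosh (η * t) * max (|S x| - t) 0
          = cosh (η * S x) - 1 := by
        intro x hx
        rw [cosh_taylor η |S x| c (abs_nonneg _) (hS x hx)]
        congr 1
        rw [← cosh_abs (η * S x), abs_mul, abs_of_pos hpos]
      rw [sum_congr rfl h3, sum_sub_distrib]
      simp
    · intro x _
      exact (by fun_prop : Continuous (fun t : ℝ => η ^ 2 * cosh (η * t) * max (|S x| - t) 0)).intervalIntegrable _ _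
  have h4 : (∫ t in (0:ℝ)..c, η ^ 2 * cosh (η * t) * ∑ x ∈ D, max (|S x| - t) 0)
      ≤ ∫ t in (0:ℝ)..c, (D.card : ℝ) / (2 * c) * (η ^ 2 * cosh (η * t) * (c - t) ^ 2) := by
    apply intervalIntegral.integral_mono_on hc.le
    · exact (by fun_prop : Continuous (fun t : ℝ => η ^ 2 * cosh (η * t)
        * ∑ x ∈ D, max (|S x| - t) 0)).intervalIntegrable _ _
    · exact (by fun_prop : Continuous (fun t : ℝ => (D.card : ℝ) / (2 * c)
        * (η ^ 2 * cosh (η * t) * (c - t) ^ 2))).intervalIntegrable _ _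
    · intro t ht
      have h5 := hA t ht.1 ht.2
      have h6 : 0 ≤ η ^ 2 * cosh (η * t) := by
        have := cosh_pos (η * t); positivity
      have h7 : ∑ x ∈ D, max (|S x| - t) 0 ≤ (c - t) ^ 2 * (D.card : ℝ) / (2 * c) := by
        rw [le_div_iff₀ (by positivity)]
        linarith
      calc η ^ 2 * cosh (η * t) * ∑ x ∈ D, max (|S x| - t) 0
          ≤ η ^ 2 * cosh (η * t) * ((c - t) ^ 2 * (D.card : ℝ) / (2 * c)) :=
            mul_le_mul_of_nonneg_left h7 h6
        _ = _ := by ring
  rw [intervalIntegral.integral_const_mul] at h4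
  rcases unif_taylor η c with h8 | h8
  · rw [h8] at h4
    have h9 : (D.card : ℝ) / (2 * c) * (2 * (sinh (η * c) / η - c))
        = (D.card : ℝ) * (sinh (η * c) / (η * c)) - (D.card : ℝ) := by
      field_simp
    rw [h9] at h4
    have h10 : ∑ x ∈ D, cosh (η * S x) ≤ (D.card : ℝ) * (sinh (η * c) / (η * c)) := by
      rw [h1]; linarith
    calc (∑ x ∈ D, cosh (η * S x)) * (η * c)
        ≤ (D.card : ℝ) * (sinh (η * c) / (η * c)) * (η * c) :=
          mul_le_mul_of_nonneg_right h10 (by positivity)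
      _ = _ := by
          have : η * c ≠ 0 := by positivity
          field_simp
  · exact absurd h8 hpos.ne'

end Pool.Agent.MP_cb3c9c_an.TB
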